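import Pool.Agent.V11152.MetCut

/-!
# Inflation factor of the John ellipsoid of the metric polytope

The exact value of `r_n` for all `n ≥ 3`, and the limit of `r_n / n`.
-/

set_option autoImplicit false

open Matrix Finset MeasureTheory Filter Topology Pool.Agent.V11152.Met

noncomputable section

namespace Pool.Agent.Results.MP_68beba_co.InflationFactor

/-- The square of the inflation factor, in terms of `n` and the coordinate `δ` of the centre. -/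
def rho (n : ℕ) (δ : ℝ) : ℝ :=
  ((2 - 3 * δ) * ((n ^ 2 / 4 : ℕ) : ℝ) + (n.choose 2 : ℝ) * δ ^ 2) / (δ * (1 - δ))

theorem cub_continuous (n : ℕ) : Continuous (cub n) := by
  unfold cub; fun_prop

theorem exists_root {n : ℕ} (hn : 3 ≤ n) : ∃ δ : ℝ, 3 / 5 < δ ∧ δ < 2 / 3 ∧ cub n δ = 0 := by
  have hnr : (3:ℝ) ≤ n := by exact_mod_cast hn
  have h1 : 0 < cub n (3 / 5) := by unfold cub; nlinarith
  have h2 : cub n (2 / 3) < 0 := by unfold cub; nlinarith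
  have h := intermediate_value_Icc' (show (3 / 5 : ℝ) ≤ 2 / 3 by norm_num)
    (cub_continuous n).continuousOn
  obtain ⟨δ, hδ, h0⟩ := h ⟨h2.le, h1.le⟩
  refine ⟨δ, lt_of_le_of_ne hδ.1 ?_, lt_of_le_of_ne hδ.2 ?_, h0⟩
  · rintro rfl; linarith
  · rintro rfl; linarith

theorem root_unique {n : ℕ} (hn : 3 ≤ n) {δ δ' : ℝ} (h0 : 0 < δ) (h1 : δ < 1)
    (hc : cub n δ = 0) (h0' : 0 < δ') (h1' : δ' < 1) (hc' : cub n δ' = 0) : δ' = δ := by
  obtain ⟨B, hB, hBH⟩ := exists_B hn δ h0 h1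
  obtain ⟨B', hB', hBH'⟩ := exists_B hn δ' h0' h1'
  have hJ := john_exists hn h0' h1' hc' B' hB' hBH'
  have := (john_unique hn h0 h1 hc B hB hBH _ _ hJ).1
  let e : E n := ⟨(⟨0, by omega⟩, ⟨1, by omega⟩), by simp [Fin.lt_def]⟩
  exact congrFun this e

theorem floor_eq (n : ℕ) : (((n ^ 2 / 4 : ℕ) : ℝ)) = ((n / 2 : ℕ) : ℝ) * (n - ((n / 2 : ℕ) : ℝ)) := by
  have hle : n / 2 ≤ n := Nat.div_le_self n 2
  have h : n ^ 2 / 4 = (n / 2) * (n - n / 2) := by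
    rcases Nat.even_or_odd' n with ⟨k, hk | hk⟩
    · subst hk
      have h1 : 2 * k / 2 = k := by omega
      have h2 : 2 * k - k = k := by omega
      rw [h1, h2]
      have : (2 * k) ^ 2 = 4 * (k * k) := by ring
      rw [this]; omega
    · subst hk
      have h1 : (2 * k + 1) / 2 = k := by omega
      have h2 : 2 * k + 1 - k = k + 1 := by omega
      rw [h1, h2]
      have : (2 * k + 1) ^ 2 = 4 * (k * (k + 1)) + 1 := by ring
      rw [this]; omega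
  rw [h, Nat.cast_mul, Nat.cast_sub hle]

theorem rho_pos {n : ℕ} (hn : 3 ≤ n) {δ : ℝ} (h0 : 3 / 5 < δ) (h1 : δ < 2 / 3) : 0 < rho n δ := by
  unfold rho
  have h2 : 0 < 2 - 3 * δ := by linarith
  have h3 : 0 < δ := by linarith
  have h4 : 0 < 1 - δ := by linarith
  have h5 : (0:ℝ) < (n.choose 2 : ℝ) := by
    have : 0 < n.choose 2 := Nat.choose_pos (by omega)
    exact_mod_cast this
  positivity

theorem isLeast {n : ℕ} (hn : 3 ≤ n) {δ : ℝ} (h0 : 3 / 5 < δ) (h1 : δ < 2 / 3)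
    (hc : cub n δ = 0) (c : E n → ℝ) (L : Matrix (E n) (E n) ℝ) (hJ : IsJohn n c L) :
    c = (fun _ => δ) ∧
      IsLeast {r : ℝ | 0 < r ∧ metricPolytope n ⊆ ellipsoid c (r • L)} (√(rho n δ)) := by
  have h0' : 0 < δ := by linarith
  have h1' : δ < 1 := by linarith
  obtain ⟨B, hB, hBH⟩ := exists_B hn δ h0' h1'
  obtain ⟨hcc, hO⟩ := john_unique hn h0' h1' hc B hB hBH c L hJ
  have hρ := rho_pos hn h0 h1
  have hs : 0 < √(rho n δ) := Real.sqrt_pos.2 hρ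
  refine ⟨hcc, ⟨hs, ?_⟩, ?_⟩
  · intro x hx
    rw [mem_scaled hn h0' h1' B hB hBH L hO c x hs, hcc, Real.sq_sqrt hρ.le]
    have := form_le hn h0 h1 hx (n ^ 2 / 4) (by
      rcases Nat.even_or_odd' n with ⟨k, hk | hk⟩
      · subst hk
        have : (2 * k) ^ 2 = 4 * (k * k) := by ring
        rw [this]; omega
      · subst hk
        have : (2 * k + 1) ^ 2 = 4 * (k * (k + 1)) + 1 := by ring
        rw [this]; omega)
    unfold rho
    rw [Nat.cast_choose_two]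
    exact this
  · rintro r ⟨hr, hsub⟩
    have hm : n / 2 ≤ n := Nat.div_le_self n 2
    have hx := hsub (cutv_mem (n := n) (n / 2))
    rw [mem_scaled hn h0' h1' B hB hBH L hO c _ hr, hcc, form_cut hn h0' h1' hm,
      ← floor_eq, ← Nat.cast_choose_two ℝ n] at hx
    rw [Real.sqrt_le_left hr.le]
    exact hx

theorem root_bound {n : ℕ} (hn : 3 ≤ n) {δ : ℝ} (h0 : 3 / 5 < δ) (h1 : δ < 2 / 3)
    (hc : cub n δ = 0) : |δ - (3 - √3) / 2| ≤ 96 / n := by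
  have hnr : (3:ℝ) ≤ n := by exact_mod_cast hn
  have hn0 : (0:ℝ) < n := by linarith
  have h3 : √3 ^ 2 = 3 := Real.sq_sqrt (by norm_num)
  have h3' : (1:ℝ) < √3 := by
    rw [show (1:ℝ) = √1 by simp]; exact Real.sqrt_lt_sqrt (by norm_num) (by norm_num)
  have e1 : n ^ 2 * ((2 - δ) * (2 * δ ^ 2 - 6 * δ + 3)) =
      n * (14 - 30 * δ + 14 * δ ^ 2 - 2 * δ ^ 3) - (8 - 16 * δ + 8 * δ ^ 2 - 4 * δ ^ 3) := by
    have : cub n δ = n ^ 2 * ((2 - δ) * (2 * δ ^ 2 - 6 * δ + 3)) -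
      n * (14 - 30 * δ + 14 * δ ^ 2 - 2 * δ ^ 3) + (8 - 16 * δ + 8 * δ ^ 2 - 4 * δ ^ 3) := by
      unfold cub; ring
    linarith
  have e2 : 2 * δ ^ 2 - 6 * δ + 3 = 2 * (δ - (3 - √3) / 2) * (δ - (3 + √3) / 2) := by
    have : 2 * (δ - (3 - √3) / 2) * (δ - (3 + √3) / 2) = 2 * δ ^ 2 - 6 * δ + (9 - √3 ^ 2) / 2 := by
      ring
    rw [this, h3]; ring
  have hd2 : 0 < δ ^ 2 := by positivity
  have hd2' : δ ^ 2 < 1 := by nlinarith
  have hd3 : 0 < δ ^ 3 := by positivity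
  have hd3' : δ ^ 3 < 1 := by nlinarith
  have b1 : |14 - 30 * δ + 14 * δ ^ 2 - 2 * δ ^ 3| ≤ 60 := by
    rw [abs_le]; constructor <;> nlinarith
  have b2 : |8 - 16 * δ + 8 * δ ^ 2 - 4 * δ ^ 3| ≤ 36 := by
    rw [abs_le]; constructor <;> nlinarith
  have e3 : |(n:ℝ) ^ 2 * ((2 - δ) * (2 * δ ^ 2 - 6 * δ + 3))| ≤ (n:ℝ) * 96 := by
    rw [e1]
    calc |(n:ℝ) * (14 - 30 * δ + 14 * δ ^ 2 - 2 * δ ^ 3) - (8 - 16 * δ + 8 * δ ^ 2 - 4 * δ ^ 3)|
        ≤ |(n:ℝ) * (14 - 30 * δ + 14 * δ ^ 2 - 2 * δ ^ 3)| + |8 - 16 * δ + 8 * δ ^ 2 - 4 * δ ^ 3| :=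
          abs_sub _ _
      _ ≤ (n:ℝ) * 60 + 36 := by
          rw [abs_mul, abs_of_pos hn0]
          exact add_le_add (mul_le_mul_of_nonneg_left b1 hn0.le) b2
      _ ≤ (n:ℝ) * 96 := by linarith
  have e4 : |(n:ℝ) ^ 2 * ((2 - δ) * (2 * δ ^ 2 - 6 * δ + 3))| =
      n ^ 2 * ((2 - δ) * (2 * |δ - (3 - √3) / 2| * ((3 + √3) / 2 - δ))) := by
    rw [e2, abs_mul, abs_mul, abs_mul, abs_mul, abs_of_pos (by positivity : (0:ℝ) < n ^ 2),
      abs_of_pos (by linarith : (0:ℝ) < 2 - δ), abs_of_pos (by norm_num : (0:ℝ) < 2),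
      abs_of_neg (by linarith : δ - (3 + √3) / 2 < 0)]
    ring
  rw [e4] at e3
  rw [le_div_iff₀ hn0]
  set A := |δ - (3 - √3) / 2| with hA
  have hA0 : 0 ≤ A := abs_nonneg _
  have e5 : A * 1 ≤ (2 - δ) * (2 * A * ((3 + √3) / 2 - δ)) := by
    have : 1 ≤ (2 - δ) * (2 * ((3 + √3) / 2 - δ)) := by
      have a1 : 1 ≤ 2 - δ := by linarith
      have a2 : 1 ≤ 2 * ((3 + √3) / 2 - δ) := by linarith
      nlinarith
    nlinarith
  have e6 : (n:ℝ) * (A * n) ≤ n * 96 := by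
    have : (n:ℝ) ^ 2 * (A * 1) ≤ n ^ 2 * ((2 - δ) * (2 * A * ((3 + √3) / 2 - δ))) :=
      mul_le_mul_of_nonneg_left e5 (sq_nonneg _)
    nlinarith
  exact le_of_mul_le_mul_left e6 hn0

theorem limit_value :
    √(((2 - 3 * ((3 - √3) / 2)) * (1 / 4) + 1 / 2 * ((3 - √3) / 2) ^ 2) /
      (((3 - √3) / 2) * (1 - (3 - √3) / 2))) = (3:ℝ) ^ (3 / 4 : ℝ) * √(5 + √3) / 6 := by
  have h3 : √3 ^ 2 = 3 := Real.sq_sqrt (by norm_num)
  have h3' : (1:ℝ) < √3 := by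
    rw [show (1:ℝ) = √1 by simp]; exact Real.sqrt_lt_sqrt (by norm_num) (by norm_num)
  have h3'' : √3 < 2 := by
    rw [show (2:ℝ) = √(2 ^ 2) by simp]; exact Real.sqrt_lt_sqrt (by norm_num) (by norm_num)
  have hr : (0:ℝ) ≤ (3:ℝ) ^ (3 / 4 : ℝ) * √(5 + √3) / 6 := by positivity
  rw [Real.sqrt_eq_iff_mul_self_eq_of_pos]
  · have e1 : (3:ℝ) ^ (3 / 4 : ℝ) * (3:ℝ) ^ (3 / 4 : ℝ) = 3 * √3 := by
      have e0 : (3:ℝ) * (3:ℝ) ^ (1 / 2 : ℝ) = (3:ℝ) ^ (1 : ℝ) * (3:ℝ) ^ (1 / 2 : ℝ) := by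
        rw [Real.rpow_one]
      rw [← Real.rpow_add (by norm_num), Real.sqrt_eq_rpow, e0, ← Real.rpow_add (by norm_num)]
      norm_num
    have e2 : √(5 + √3) * √(5 + √3) = 5 + √3 := Real.mul_self_sqrt (by positivity)
    have e3 : (3:ℝ) ^ (3 / 4 : ℝ) * √(5 + √3) / 6 * ((3:ℝ) ^ (3 / 4 : ℝ) * √(5 + √3) / 6) =
        (3 * √3) * (5 + √3) / 36 := by
      have e4 : (3:ℝ) ^ (3 / 4 : ℝ) * √(5 + √3) / 6 * ((3:ℝ) ^ (3 / 4 : ℝ) * √(5 + √3) / 6) =
        ((3:ℝ) ^ (3 / 4 : ℝ) * (3:ℝ) ^ (3 / 4 : ℝ)) * (√(5 + √3) * √(5 + √3)) / 36 := by ring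
      rw [e4, e1, e2]
    rw [e3]
    rw [eq_div_iff]
    · have h4 : √3 ^ 3 = 3 * √3 := by rw [pow_succ, h3]
      have h5 : √3 ^ 4 = 9 := by
        have : √3 ^ 4 = (√3 ^ 2) ^ 2 := by ring
        rw [this, h3]; norm_num
      ring_nf
      rw [h3, h4, h5]; ring
    · have : 0 < ((3 - √3) / 2) * (1 - (3 - √3) / 2) := by
        apply mul_pos <;> linarith
      exact this.ne'
  · have : (0:ℝ) < (3:ℝ) ^ (3 / 4 : ℝ) := Real.rpow_pos_of_pos (by norm_num) _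
    have : 0 < √(5 + √3) := Real.sqrt_pos.2 (by positivity)
    positivity

/-- **The inflation factor `r_n` of the John ellipsoid of the metric polytope.**

(1) For every `n ≥ 3` the cubic `cub n` has exactly one root `δ` in `(0,1)`; the metric polytope
contains an ellipsoid of maximal volume, it is unique, its centre is `(δ,…,δ)`, and the least
`r > 0` such that its homothetic copy of ratio `r` contains the metric polytope is
`√(((2 - 3 δ) ⌊n²/4⌋ + (n choose 2) δ²) / (δ (1 - δ)))`.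

(2) If `r n` denotes this least number, then `r n / n` tends to `3^{3/4} √(5 + √3) / 6`. -/
theorem result :
    (∀ n : ℕ, 3 ≤ n → ∃ δ : ℝ, (0 < δ ∧ δ < 1 ∧ cub n δ = 0) ∧
      (∀ δ' : ℝ, 0 < δ' → δ' < 1 → cub n δ' = 0 → δ' = δ) ∧
      (∃ c L, IsJohn n c L) ∧
      (∀ c L c' L', IsJohn n c L → IsJohn n c' L' → ellipsoid c L = ellipsoid c' L') ∧
      ∀ c L, IsJohn n c L → c = (fun _ => δ) ∧
        IsLeast {r : ℝ | 0 < r ∧ metricPolytope n ⊆ ellipsoid c (r • L)} (√(rho n δ))) ∧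
    ∀ r : ℕ → ℝ,
      (∀ n : ℕ, 3 ≤ n → ∃ c L, IsJohn n c L ∧
        IsLeast {s : ℝ | 0 < s ∧ metricPolytope n ⊆ ellipsoid c (s • L)} (r n)) →
      Tendsto (fun n : ℕ => r n / n) atTop (𝓝 ((3:ℝ) ^ (3 / 4 : ℝ) * √(5 + √3) / 6)) := by
  refine ⟨?_, ?_⟩
  · intro n hn
    obtain ⟨δ, h0, h1, hc⟩ := exists_root hn
    have h0' : 0 < δ := by linarith
    have h1' : δ < 1 := by linarith
    obtain ⟨B, hB, hBH⟩ := exists_B hn δ h0' h1'
    refine ⟨δ, ⟨h0', h1', hc⟩, fun δ' a b c => root_unique hn h0' h1' hc a b c,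
      ⟨_, _, john_exists hn h0' h1' hc B hB hBH⟩, ?_, fun c L hJ => isLeast hn h0 h1 hc c L hJ⟩
    intro c L c' L' hJ hJ'
    obtain ⟨hcc, hO⟩ := john_unique hn h0' h1' hc B hB hBH c L hJ
    obtain ⟨hcc', hO'⟩ := john_unique hn h0' h1' hc B hB hBH c' L' hJ'
    ext x
    have e1 := mem_scaled hn h0' h1' B hB hBH L hO c x one_pos
    have e2 := mem_scaled hn h0' h1' B hB hBH L' hO' c' x one_pos
    rw [one_smul] at e1 e2
    rw [e1, e2, hcc, hcc']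
  · intro r hr
    choose! δ h0 h1 hc using fun (n : ℕ) (hn : 3 ≤ n) => exists_root hn
    have hδ : Tendsto δ atTop (𝓝 ((3 - √3) / 2)) := by
      rw [tendsto_iff_norm_sub_tendsto_zero]
      have hlim : Tendsto (fun n : ℕ => (96:ℝ) / n) atTop (𝓝 0) :=
        tendsto_const_div_atTop_nhds_zero_nat 96
      refine squeeze_zero' (Eventually.of_forall fun n => norm_nonneg _) ?_ hlim
      filter_upwards [eventually_ge_atTop 3] with n hn
      rw [Real.norm_eq_abs]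
      exact root_bound hn (h0 n hn) (h1 n hn) (hc n hn)
    have hr' : ∀ n, 3 ≤ n → r n = √(rho n (δ n)) := by
      intro n hn
      obtain ⟨c, L, hJ, hL⟩ := hr n hn
      exact hL.unique (isLeast hn (h0 n hn) (h1 n hn) (hc n hn) c L hJ).2
    have hK : Tendsto (fun n : ℕ => (((n ^ 2 / 4 : ℕ) : ℝ)) / (n:ℝ) ^ 2) atTop (𝓝 (1 / 4)) := by
      have hlow : Tendsto (fun n : ℕ => (1 / 4 : ℝ) - 1 / (n:ℝ) ^ 2) atTop (𝓝 (1 / 4 - 0)) := by
        refine tendsto_const_nhds.sub ?_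
        have := (tendsto_const_div_atTop_nhds_zero_nat 1).mul
          (tendsto_const_div_atTop_nhds_zero_nat (𝕜 := ℝ) 1)
        rw [mul_zero] at this
        refine this.congr fun n => ?_
        rw [div_mul_div_comm, one_mul, sq]
      rw [sub_zero] at hlow
      refine tendsto_of_tendsto_of_tendsto_of_le_of_le' hlow tendsto_const_nhds ?_ ?_
      · filter_upwards [eventually_ge_atTop 1] with n hn
        have hn0 : (0:ℝ) < (n:ℝ) ^ 2 := by positivity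
        rw [le_div_iff₀ hn0, sub_mul, one_div_mul_cancel hn0.ne']
        have : n ^ 2 ≤ 4 * (n ^ 2 / 4) + 3 := by omega
        have : (n:ℝ) ^ 2 ≤ 4 * ((n ^ 2 / 4 : ℕ) : ℝ) + 3 := by exact_mod_cast this
        linarith
      · filter_upwards [eventually_ge_atTop 1] with n hn
        have hn0 : (0:ℝ) < (n:ℝ) ^ 2 := by positivity
        rw [div_le_iff₀ hn0]
        have : 4 * (n ^ 2 / 4) ≤ n ^ 2 := by omega
        have : 4 * ((n ^ 2 / 4 : ℕ) : ℝ) ≤ (n:ℝ) ^ 2 := by exact_mod_cast this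
        linarith
    have hN : Tendsto (fun n : ℕ => ((n.choose 2 : ℕ) : ℝ) / (n:ℝ) ^ 2) atTop (𝓝 (1 / 2)) := by
      have h1 : Tendsto (fun n : ℕ => (1 / 2 : ℝ) - 1 / 2 * (1 / (n:ℝ))) atTop
          (𝓝 (1 / 2 - 1 / 2 * 0)) :=
        tendsto_const_nhds.sub (tendsto_const_nhds.mul (tendsto_const_div_atTop_nhds_zero_nat 1))
      rw [mul_zero, sub_zero] at h1
      refine h1.congr' ?_
      filter_upwards [eventually_ge_atTop 1] with n hn
      have hn0 : (0:ℝ) < (n:ℝ) := by positivity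
      rw [Nat.cast_choose_two]
      field_simp
    have hmain : Tendsto (fun n : ℕ => rho n (δ n) / (n:ℝ) ^ 2) atTop
        (𝓝 (((2 - 3 * ((3 - √3) / 2)) * (1 / 4) + 1 / 2 * ((3 - √3) / 2) ^ 2) /
          (((3 - √3) / 2) * (1 - (3 - √3) / 2)))) := by
      have hden : Tendsto (fun n => δ n * (1 - δ n)) atTop
          (𝓝 (((3 - √3) / 2) * (1 - (3 - √3) / 2))) := hδ.mul (tendsto_const_nhds.sub hδ)
      have hnum : Tendsto (fun n : ℕ => (2 - 3 * δ n) * ((((n ^ 2 / 4 : ℕ) : ℝ)) / (n:ℝ) ^ 2) +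
          ((n.choose 2 : ℕ) : ℝ) / (n:ℝ) ^ 2 * δ n ^ 2) atTop
          (𝓝 ((2 - 3 * ((3 - √3) / 2)) * (1 / 4) + 1 / 2 * ((3 - √3) / 2) ^ 2)) :=
        ((tendsto_const_nhds.sub (hδ.const_mul 3)).mul hK).add (hN.mul (hδ.pow 2))
      have hne : ((3 - √3) / 2) * (1 - (3 - √3) / 2) ≠ 0 := by
        have h3' : (1:ℝ) < √3 := by
          rw [show (1:ℝ) = √1 by simp]; exact Real.sqrt_lt_sqrt (by norm_num) (by norm_num)
        have h3'' : √3 < 2 := by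
          rw [show (2:ℝ) = √(2 ^ 2) by simp]; exact Real.sqrt_lt_sqrt (by norm_num) (by norm_num)
        have : 0 < ((3 - √3) / 2) * (1 - (3 - √3) / 2) := by
          apply mul_pos <;> linarith
        exact this.ne'
      refine (hnum.div hden hne).congr fun n => ?_
      simp only [Pi.div_apply]
      unfold rho
      have e : (2 - 3 * δ n) * ((((n ^ 2 / 4 : ℕ) : ℝ)) / (n:ℝ) ^ 2) +
          ((n.choose 2 : ℕ) : ℝ) / (n:ℝ) ^ 2 * δ n ^ 2 =
          ((2 - 3 * δ n) * ((n ^ 2 / 4 : ℕ) : ℝ) + ((n.choose 2 : ℕ) : ℝ) * δ n ^ 2) /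
            (n:ℝ) ^ 2 := by ring
      rw [e, div_right_comm]
    rw [← limit_value]
    have := (Real.continuous_sqrt.tendsto _).comp hmain
    refine this.congr' ?_
    filter_upwards [eventually_ge_atTop 3] with n hn
    have hn0 : (0:ℝ) < (n:ℝ) := by positivity
    rw [hr' n hn, Function.comp_apply, Real.sqrt_div' _ (by positivity), Real.sqrt_sq hn0.le]

end Pool.Agent.Results.MP_68beba_co.InflationFactor
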